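import Pool.Agent.Helper38.RS.Goals4

/-!
# Project RS (MP_fc6b1e_nt): the descent `S_DSC`
-/

namespace Pool.Agent.Helper60.RS

open NumberField Polynomial Module IsDedekindDomain Pool.Agent.Helper51.SigLeo
open Pool.Agent.Helper38.RS

section ordv

variable {M : Type} [Field M] [NumberField M] (v : HeightOneSpectrum (𝓞 M))

theorem ordv_mul {x y : M} (hx : x ≠ 0) (hy : y ≠ 0) :
    ordv v (x * y) = ordv v x + ordv v y := by
  have h1 : v.valuation M x ≠ 0 := (Valuation.ne_zero_iff _).mpr hx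
  have h2 : v.valuation M y ≠ 0 := (Valuation.ne_zero_iff _).mpr hy
  unfold ordv
  rw [map_mul, WithZero.log_mul h1 h2]
  ring

theorem ordv_one_of {x : M} (h : v.valuation M x = 1) : ordv v x = 0 := by
  unfold ordv
  rw [h]
  simp

theorem ordv_neg (x : M) : ordv v (-x) = ordv v x := by
  unfold ordv
  rw [Valuation.map_neg]

/-- `z y ^ 2 ≡ 1` implies that the valuation of `z` is even. -/
theorem even_of_locSq {z : M} (h : LocSq v z) : Even (ordv v z) := by
  obtain ⟨y, hy⟩ := h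
  have h1 : v.valuation M (z * y ^ 2) = 1 := by
    have h2 : z * y ^ 2 = 1 + (z * y ^ 2 - 1) := by ring
    rw [h2]
    have h3 : v.valuation M (z * y ^ 2 - 1) < v.valuation M 1 := by rwa [map_one]
    rw [Valuation.map_add_eq_of_lt_left _ h3, map_one]
  have hne : z * y ^ 2 ≠ 0 := by
    intro h0
    rw [h0, map_zero] at h1
    exact zero_ne_one h1
  have hz : z ≠ 0 := left_ne_zero_of_mul hne
  have hy2 : y ^ 2 ≠ 0 := right_ne_zero_of_mul hne
  have hy0 : y ≠ 0 := fun h0 ↦ hy2 (by rw [h0]; ring)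
  have h4 := ordv_one_of v h1
  rw [ordv_mul v hz hy2, pow_two, ordv_mul v hy0 hy0] at h4
  exact ⟨-ordv v y, by linarith⟩

end ordv

section pol

variable {K M : Type} [Field K] [Field M] [Algebra K M]

/-- If `P` and `X - 1` are coprime, `P(δ) x` and `x δ(x)` are squares, then `x` is a square. -/
theorem sq_of_pol (P : (ZMod 2)[X]) (hP : IsCoprime P (X ^ 1 - 1)) (δ : M ≃ₐ[K] M) (x : Mˣ)
    (h1 : Sq (pol P δ x)) (h2 : Sq (x * Units.map ((δ : M →+* M) : M →* M) x)) : Sq x := by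
  classical
  -- `δ ^ j x = x y ^ 2`
  have hj : ∀ j : ℕ, ∃ y : Mˣ,
      Units.map (((δ ^ j : M ≃ₐ[K] M) : M →+* M) : M →* M) x = x * y ^ 2 := by
    intro j
    induction j with
    | zero =>
        refine ⟨1, ?_⟩
        ext
        simp
    | succ j ih =>
        obtain ⟨y, hy⟩ := ih
        obtain ⟨z, hz⟩ := h2
        refine ⟨z * x⁻¹ * Units.map ((δ : M →+* M) : M →* M) y, ?_⟩
        have h3 : Units.map (((δ ^ (j + 1) : M ≃ₐ[K] M) : M →+* M) : M →* M) x =
            Units.map ((δ : M →+* M) : M →* M)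
              (Units.map (((δ ^ j : M ≃ₐ[K] M) : M →+* M) : M →* M) x) := by
          ext
          simp [pow_succ']
        rw [h3, hy, map_mul, map_pow]
        have h4 : Units.map ((δ : M →+* M) : M →* M) x = z ^ 2 * x⁻¹ := by
          rw [← hz]
          group
          rw [mul_comm]
          group
        rw [h4]
        rw [mul_pow, mul_pow]
        have h5 : x⁻¹ = x * (x⁻¹) ^ 2 := by
          rw [pow_two, ← mul_assoc]
          simp
        calc z ^ 2 * x⁻¹ * (Units.map ((δ : M →+* M) : M →* M)) y ^ 2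
            = z ^ 2 * (x * (x⁻¹) ^ 2) * (Units.map ((δ : M →+* M) : M →* M)) y ^ 2 := by
              rw [← h5]
          _ = x * (z ^ 2 * x⁻¹ ^ 2 * (Units.map ((δ : M →+* M) : M →* M)) y ^ 2) := by
              rw [← mul_assoc, ← mul_assoc, ← mul_assoc, mul_comm x (z ^ 2)]
  choose y hy using hj
  have h3 : pol P δ x = x ^ P.support.card * (∏ j ∈ P.support, y j) ^ 2 := by
    unfold pol
    rw [MonoidHom.finsetProd_apply]
    rw [Finset.prod_congr rfl fun j _ ↦ hy j]
    rw [Finset.prod_mul_distrib, Finset.prod_const, Finset.prod_pow]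
  -- the number of coefficients is odd
  have h4 : P.eval 1 = (P.support.card : ZMod 2) := by
    rw [Polynomial.eval_eq_sum, Polynomial.sum]
    rw [Finset.card_eq_sum_ones, Nat.cast_sum]
    refine Finset.sum_congr rfl fun j hj ↦ ?_
    have h5 : P.coeff j ≠ 0 := Polynomial.mem_support_iff.mp hj
    have h6 : ∀ c : ZMod 2, c ≠ 0 → c = 1 := by decide
    rw [h6 _ h5]
    simp
  have h5 : P.eval 1 ≠ 0 := by
    obtain ⟨u, v, huv⟩ := hP
    intro h0
    have h6 := congrArg (Polynomial.eval 1) huv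
    simp [h0] at h6
  have h6 : Odd P.support.card := by
    rw [h4] at h5
    by_contra hcon
    rw [Nat.not_odd_iff_even] at hcon
    exact h5 ((ZMod.natCast_eq_zero_iff_even).mpr hcon)
  obtain ⟨t, ht⟩ := h6
  obtain ⟨z, hz⟩ := h1
  refine ⟨z * (∏ j ∈ P.support, y j)⁻¹ * (x⁻¹) ^ t, ?_⟩
  rw [h3, ht] at hz
  rw [mul_pow, mul_pow, ← hz]
  have h7 : x ^ (2 * t + 1) = x * (x ^ t) ^ 2 := by
    rw [pow_succ, mul_comm, ← pow_mul, mul_comm t 2]
  rw [h7]
  set Y := ∏ j ∈ P.support, y j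
  rw [mul_assoc (x * (x ^ t) ^ 2), ← mul_pow Y, mul_inv_cancel, one_pow, mul_one, mul_assoc,
    ← mul_pow, inv_pow, mul_inv_cancel, one_pow, mul_one]

end pol

theorem ordv_conj {K M : Type} [Field K] [Field M] [NumberField M] [Algebra K M]
    {w v : HeightOneSpectrum (𝓞 M)} (g : M ≃ₐ[K] M)
    (hg : ∀ y : M, w.valuation M (g y) = v.valuation M y) (x : M) :
    ordv v (g⁻¹ x) = ordv w x := by
  have h1 : g (g⁻¹ x) = x := AlgEquiv.apply_symm_apply g x
  have h2 := hg (g⁻¹ x)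
  rw [h1] at h2
  unfold ordv
  rw [h2]

section tame

variable {M : Type} [Field M] [NumberField M] (v : HeightOneSpectrum (𝓞 M))

/-- `b ≡ 1` modulo `v`: the tame condition for `a b` implies the one for `a`. -/
theorem tame_of_mul {a b x : M} (hb : v.valuation M (b - 1) < 1) (h : Tame v (a * b) x) :
    Tame v a x := by
  have hb1 : v.valuation M b = 1 := by
    have h2 : b = 1 + (b - 1) := by ring
    rw [h2]
    have h3 : v.valuation M (b - 1) < v.valuation M 1 := by rwa [map_one]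
    rw [Valuation.map_add_eq_of_lt_left _ h3, map_one]
  have hb0 : b ≠ 0 := by
    intro h0
    rw [h0, map_zero] at hb1
    exact zero_ne_one hb1
  rcases h with h | ⟨y, hy⟩
  · exact Or.inl h
  · refine Or.inr ⟨y, ?_⟩
    have h4 : -(a * x) * y ^ 2 - 1 = b⁻¹ * ((-(a * b * x) * y ^ 2 - 1) - (b - 1)) := by
      field_simp
      ring
    rw [h4, map_mul, map_inv₀, hb1, inv_one, one_mul]
    exact lt_of_le_of_lt (Valuation.map_sub _ _ _) (max_lt hy hb)

end tame

section coe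

variable {K M : Type} [Field K] [Field M] [NumberField M] [Algebra K M]
  (v : HeightOneSpectrum (𝓞 M))

theorem val_le_one (a : 𝓞 K) : v.valuation M (algebraMap K M (a : K)) ≤ 1 :=
  v.valuation_le_one (K := M) (algebraMap (𝓞 K) (𝓞 M) a)

/-- If `a ∣ c` then the valuation of `c` is at most that of `a`. -/
theorem val_dvd {a c : 𝓞 K} (h : a ∣ c) (ha : v.valuation M (algebraMap K M (a : K)) < 1) :
    v.valuation M (algebraMap K M (c : K)) < 1 := by
  obtain ⟨d, rfl⟩ := h
  have h1 : ((a * d : 𝓞 K) : K) = (a : K) * (d : K) := rfl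
  rw [h1, map_mul, map_mul]
  exact mul_lt_one_of_lt_of_le ha (val_le_one v d)

theorem finite_dvd (c : 𝓞 K) (hc : c ≠ 0) :
    {v : HeightOneSpectrum (𝓞 M) | v.valuation M (algebraMap K M (c : K)) < 1}.Finite := by
  have hc' : algebraMap (𝓞 K) (𝓞 M) c ≠ 0 := by
    intro h0
    have h1 : algebraMap K M (c : K) = 0 := by
      have h2 : ((algebraMap (𝓞 K) (𝓞 M) c : 𝓞 M) : M) = algebraMap K M (c : K) := rfl
      rw [← h2, h0]
      rfl
    rw [map_eq_zero] at h1
    exact hc (RingOfIntegers.ext h1)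
  have hI : Ideal.span {algebraMap (𝓞 K) (𝓞 M) c} ≠ 0 := by
    rw [Ne, Ideal.zero_eq_bot, Ideal.span_singleton_eq_bot]
    exact hc'
  refine (Ideal.finite_factors hI).subset fun v hv ↦ ?_
  exact (v.valuation_lt_one_iff_dvd (K := M) (algebraMap (𝓞 K) (𝓞 M) c)).mp hv

end coe

section main

theorem zpow_or {K M : Type} [Field K] [NumberField K] [Field M] [NumberField M] [Algebra K M]
    [IsGalois K M] {m : ℕ} (δ : M ≃ₐ[K] M) (h1 : orderOf δ = m) (h2 : finrank K M = m)
    (hm : 0 < m) (g : M ≃ₐ[K] M) : ∃ i : ℕ, g = δ ^ i := by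
  classical
  have h3 : Nat.card (M ≃ₐ[K] M) = m := by
    rw [IsGalois.card_aut_eq_finrank, h2]
  have h4 : Nat.card (Subgroup.zpowers δ) = Nat.card (M ≃ₐ[K] M) := by
    rw [Nat.card_zpowers, h1, h3]
  have h5 : Subgroup.zpowers δ = ⊤ := by
    have : Finite (M ≃ₐ[K] M) := inferInstance
    exact Subgroup.eq_top_of_card_eq _ h4
  have h6 : g ∈ Subgroup.zpowers δ := by rw [h5]; exact Subgroup.mem_top g
  have h7 : IsOfFinOrder δ := by
    rw [← orderOf_pos_iff, h1]; exact hm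
  rw [← mem_powers_iff_mem_zpowers] at h6
  obtain ⟨i, hi⟩ := h6
  exact ⟨i, hi.symm⟩

theorem s_dsc (h1 : S_DUAL) (h2 : S_STP) (h3 : S_QEX) (h4 : S_BEX) (h5 : S_SLG) (h6 : S_NFR)
    (h7 : S_CMP) : Pool.Agent.Helper38.RS.S_DSC := by
  classical
  intro k _ _ _ _ hne L K M _ _ _ _ _ _ _ m δ ζ Φ P hPhi hord hfin T hT hTc a ha ha8 hx
  have hMc : IsTotallyComplex M := isTotallyComplex_of_algebra K M
  obtain ⟨S, 𝔪, ψ, hS, hψ, hψ1, hψ2⟩ := h1 k hne L K M m δ ζ Φ P hPhi hord hfin T hT hTc a ha ha8 hx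
  obtain ⟨x₀, hx₀, hx₀s⟩ := hx
  have haK : (a : K) ≠ 0 := fun h0 ↦ ha (RingOfIntegers.ext h0)
  have haM : algebraMap K M (a : K) ≠ 0 := by rwa [Ne, map_eq_zero]
  -- the group Sel(a)
  obtain ⟨G, hG, hGs, hGδ⟩ := h5 k L K M δ P T (a : K) haK
  have hx₀δ : ¬ Sq (x₀ * Units.map ((δ : M →+* M) : M →* M) x₀) := by
    intro hcon
    exact hx₀s (sq_of_pol P (hPhi.cop 1 one_pos hPhi.one_lt (one_dvd m)) δ x₀ hx₀.pol hcon)
  -- the prime q
  have h8a : (8 * a : 𝓞 K) ≠ 0 := mul_ne_zero (by norm_num) ha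
  obtain ⟨𝔮, h𝔮Z, h𝔮F, h𝔮ψ, h𝔮x⟩ := h3 K M 𝔪 ψ hψ δ x₀ hx₀s hx₀δ
    (S ∪ {v : HeightOneSpectrum (𝓞 M) | v.valuation M (algebraMap K M ((8 * a : 𝓞 K) : K)) < 1})
    (hS.union (finite_dvd (8 * a) h8a))
  rw [Set.mem_union, not_or] at h𝔮Z
  obtain ⟨h𝔮S, h𝔮8⟩ := h𝔮Z
  have h𝔮8' : 𝔮.valuation M (algebraMap K M ((8 * a : 𝓞 K) : K)) = 1 := by
    by_contra hcon
    exact h𝔮8 (lt_of_le_of_ne (val_le_one 𝔮 _) hcon)
  have h𝔮a : 𝔮.valuation M (algebraMap K M (a : K)) = 1 := by
    by_contra hcon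
    exact h𝔮8 (val_dvd 𝔮 (dvd_mul_left a 8) (lt_of_le_of_ne (val_le_one 𝔮 _) hcon))
  -- the element x₁
  obtain ⟨x₁, hx₁, hx₁q⟩ : ∃ x₁ : Mˣ, Sel L (above T) P δ (algebraMap K M (a : K)) x₁ ∧
      ¬ LocSq 𝔮 (x₁ : M) := by
    rcases h𝔮x with h | h
    · exact ⟨x₀, hx₀, h⟩
    · exact ⟨Units.map ((δ : M →+* M) : M →* M) x₀, (hG _).mp (hGδ _ ((hG _).mpr hx₀)), h⟩
  -- the element b
  have hmodd : Odd (finrank K M) := by rw [hfin]; exact hPhi.odd
  have hmlt : 1 < finrank K M := by rw [hfin]; exact hPhi.one_lt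
  obtain ⟨b, hb0, hb8, hbodd, hbw⟩ := h4 K M hmodd hmlt 𝔮 (8 * a) h8a (ordv_one_of 𝔮 h𝔮8')
  have hbK : (b : K) ≠ 0 := fun h0 ↦ hb0 (RingOfIntegers.ext h0)
  have hbM : algebraMap K M (b : K) ≠ 0 := by rwa [Ne, map_eq_zero]
  have habK : algebraMap K M ((a * b : 𝓞 K) : K) =
      algebraMap K M (a : K) * algebraMap K M (b : K) := by
    have h : ((a * b : 𝓞 K) : K) = (a : K) * (b : K) := rfl
    rw [h, map_mul]
  have hab : ∀ w : HeightOneSpectrum (𝓞 M), ordv w (algebraMap K M ((a * b : 𝓞 K) : K)) =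
      ordv w (algebraMap K M (a : K)) + ordv w (algebraMap K M (b : K)) := by
    intro w
    rw [habK, ordv_mul w haM hbM]
  refine ⟨b, hb0, (dvd_mul_right 8 a).trans hb8, ?_, x₁, hx₁, ?_⟩
  · intro x hx
    refine h7 k L K M m δ ζ Φ P hPhi hord hfin T a b ha ha8 hb0 hb8 x hx ?_
    -- the group Sel(ab)
    have habne : ((a * b : 𝓞 K) : K) ≠ 0 := mul_ne_zero haK hbK
    obtain ⟨G', hG', hGs', hGδ'⟩ := h5 k L K M δ P T ((a * b : 𝓞 K) : K) habne
    have hGi : ∀ i : ℕ,
        Units.map (((δ ^ i : M ≃ₐ[K] M) : M →+* M) : M →* M) x ∈ G' := by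
      intro i
      induction i with
      | zero =>
          have h : Units.map (((δ ^ 0 : M ≃ₐ[K] M) : M →+* M) : M →* M) x = x := by
            ext
            simp
          rw [h]
          exact (hG' x).mpr hx
      | succ i ih =>
          have h : Units.map (((δ ^ (i + 1) : M ≃ₐ[K] M) : M →+* M) : M →* M) x =
              Units.map ((δ : M →+* M) : M →* M)
                (Units.map (((δ ^ i : M ≃ₐ[K] M) : M →+* M) : M →* M) x) := by
            ext
            simp [pow_succ']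
          rw [h]
          exact hGδ' _ ih
    -- the hypotheses of the duality for all elements of Sel(ab)
    have hdual : ∀ x' : Mˣ, Sel L (above T) P δ (algebraMap K M ((a * b : 𝓞 K) : K)) x' →
        ∏ j ∈ Finset.range m,
          ψ (cj δ j 𝔮.asIdeal) ^ (ordv 𝔮 (((δ ^ j)⁻¹ : M ≃ₐ[K] M) (x' : M))).natAbs = 1 := by
      intro x' hx'
      refine hψ2 𝔮 h𝔮S h𝔮F x' ?_ ?_ hx'.sig
      · intro w hwa hwc
        by_cases hwb : Even (ordv w (algebraMap K M (b : K)))
        · apply hx'.even w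
          rw [hab w]
          exact hwa.add hwb
        · rw [Int.not_even_iff_odd] at hwb
          by_cases hwF : FreeP K w
          · exact absurd (hbw w hwb hwF) hwc
          · exact h6 k K M m δ ζ Φ P hPhi hord hfin x' hx'.pol w hwF
      · intro w hwa
        have hwa1 : w.valuation M (algebraMap K M (a : K)) < 1 := by
          refine lt_of_le_of_ne (val_le_one w _) fun h0 ↦ hwa ?_
          rw [ordv_one_of w h0]
          exact Even.zero
        have hwb1 : w.valuation M (algebraMap K M (b : K) - 1) < 1 := by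
          have h := val_dvd w ((dvd_mul_left a 8).trans hb8) hwa1
          have h' : algebraMap K M (((b - 1 : 𝓞 K)) : K) = algebraMap K M (b : K) - 1 := by
            have h'' : ((b - 1 : 𝓞 K) : K) = (b : K) - 1 := rfl
            rw [h'', map_sub, map_one]
          rwa [h'] at h
        have hwb : w.valuation M (algebraMap K M (b : K)) = 1 := by
          have h2 : algebraMap K M (b : K) = 1 + (algebraMap K M (b : K) - 1) := by ring
          rw [h2]
          have h3 : w.valuation M (algebraMap K M (b : K) - 1) < w.valuation M 1 := by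
            rwa [map_one]
          rw [Valuation.map_add_eq_of_lt_left _ h3, map_one]
        have hwab : ¬ Even (ordv w (algebraMap K M ((a * b : 𝓞 K) : K))) := by
          rw [hab w, ordv_one_of w hwb, add_zero]
          exact hwa
        have htame := hx'.tame w hwab
        rw [habK] at htame
        exact tame_of_mul w hwb1 htame
    have hδm : δ ^ m = 1 := by rw [← hord]; exact pow_orderOf_eq_one δ
    have hd : ∀ i : ℕ, ∏ j ∈ Finset.range m, ψ (cj δ j 𝔮.asIdeal) ^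
        (ordv 𝔮 (((δ ^ j)⁻¹ : M ≃ₐ[K] M) ((δ ^ i : M ≃ₐ[K] M) (x : M)))).natAbs = 1 := by
      intro i
      have h := hdual (Units.map (((δ ^ i : M ≃ₐ[K] M) : M →+* M) : M →* M) x)
        ((hG' _).mp (hGi i))
      have hc : ((Units.map (((δ ^ i : M ≃ₐ[K] M) : M →+* M) : M →* M) x : Mˣ) : M) =
          (δ ^ i : M ≃ₐ[K] M) (x : M) := rfl
      rw [hc] at h
      exact h
    have hstp := h2 K M m δ P hPhi.odd hδm hPhi.irr hPhi.dvdP 𝔮 ψ (hψ1 𝔮 h𝔮S) h𝔮ψ x hx.pol hd
    intro w hwb hwF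
    obtain ⟨g, hg⟩ := hbw w hwb hwF
    have hmpos : 0 < m := lt_trans one_pos hPhi.one_lt
    obtain ⟨i, hi⟩ := zpow_or δ hord hfin hmpos g⁻¹
    have h8 := ordv_conj g hg (x : M)
    rw [hi] at h8
    rw [← h8]
    exact hstp i
  · intro hcon
    have h8 : ¬ Even (ordv 𝔮 (algebraMap K M ((a * b : 𝓞 K) : K))) := by
      rw [hab 𝔮, ordv_one_of 𝔮 h𝔮a, zero_add, Int.not_even_iff_odd]
      exact hbodd
    have hev : Even (ordv 𝔮 (x₁ : M)) := by
      apply hx₁.even
      rw [ordv_one_of 𝔮 h𝔮a]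
      exact Even.zero
    rcases hcon.tame 𝔮 h8 with h9 | h9
    · exact hx₁q h9
    · have h10 := even_of_locSq 𝔮 h9
      have habM : algebraMap K M ((a * b : 𝓞 K) : K) ≠ 0 := by
        rw [habK]
        exact mul_ne_zero haM hbM
      rw [ordv_neg, ordv_mul 𝔮 habM (Units.ne_zero x₁)] at h10
      exact h8 ((Int.even_add.mp h10).mpr hev)

end main

end Pool.Agent.Helper60.RS
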